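import Pool.Agent.R944.Tysz.Int

/-!
# Small integer solutions of systems of equations `x_i = 1` and `x_i + x_j = x_k`

For every integer tuple `x` of length `n` there is an integer tuple `y` with `|y_i| ≤ 2^(n-1)` which
satisfies every equation of the forms `z_i = 1` and `z_i + z_j = z_k` that `x` satisfies.

Proof. By the theorem of Borosh, Flahive, Rubin and Treybig a consistent integer system of rank `r`
with an integer solution has an integer solution bounded by the minors of order `r` of the augmented
matrix (the special case needed is proved here). These minors are bounded by the inequality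
`|det A| ≤ ∏ M_i`, where `M_i` bounds the sum of the positive entries of row `i` and the sum of the
absolute values of its negative entries (C. R. Johnson and M. Newman).
-/

set_option autoImplicit false

open Pool.Agent.R944.Tysz

namespace Pool.Agent.Results.MP_80f852_al.SmallIntegerSolutions

/-- **Q1, affirmative.** For every `n` and every `x` in `ℤ^n` there is `y` in `ℤ^n` with
`|y_i| ≤ 2^(n-1)` for all `i` such that (U) `x_i = 1` implies `y_i = 1`, and (A) `x_k = x_i + x_j`
implies `y_k = y_i + y_j`. -/
theorem result (n : ℕ) (x : Fin n → ℤ) :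
    ∃ y : Fin n → ℤ, (∀ i, |y i| ≤ 2 ^ (n - 1)) ∧
      (∀ i, x i = 1 → y i = 1) ∧ (∀ i j k, x k = x i + x j → y k = y i + y j) := by
  let ι := {i : Fin n // x i = 1} ⊕ {t : Fin n × Fin n × Fin n // x t.2.2 = x t.1 + x t.2.1}
  let a : ι → Fin n → ℤ := fun e =>
    match e with
    | .inl i => rowU i.1
    | .inr t => rowA t.1.1 t.1.2.1 t.1.2.2
  let b : ι → ℤ := fun e =>
    match e with
    | .inl _ => 1
    | .inr _ => 0
  have hU : ∀ (i : Fin n) (y : Fin n → ℤ), ∑ k, rowU i k * y k = y i := by
    intro i y
    have h3 := eval_rowU (R := ℤ) i y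
    simpa only [Int.cast_id] using h3
  have hA : ∀ (i j k : Fin n) (y : Fin n → ℤ), ∑ l, rowA i j k l * y l = y i + y j - y k := by
    intro i j k y
    have h3 := eval_rowA (R := ℤ) i j k y
    simpa only [Int.cast_id] using h3
  obtain ⟨y, hy, hsol⟩ := integer_main a b x
    (fun e => by
      rcases e with i | t
      · show ∑ k, rowU i.1 k * x k = 1
        rw [hU, i.2]
      · show ∑ k, rowA t.1.1 t.1.2.1 t.1.2.2 k * x k = 0
        rw [hA, t.2]; ring)
    (fun e => by
      rcases e with i | t
      · exact good_rowU i.1
      · exact good_rowA _ _ _)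
  refine ⟨y, hy, ?_, ?_⟩
  · intro i hi
    have h1 : ∑ k, rowU i k * y k = 1 := hsol (.inl ⟨i, hi⟩)
    rw [hU] at h1
    exact h1
  · intro i j k hijk
    have h1 : ∑ l, rowA i j k l * y l = 0 := hsol (.inr ⟨(i, j, k), hijk⟩)
    rw [hA] at h1
    linarith

end Pool.Agent.Results.MP_80f852_al.SmallIntegerSolutions
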